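import Mathlib
import Pool.Agent.H538Z.Defs
import Pool.Agent.H538Z.Edge

set_option autoImplicit false

namespace Pool.Agent.Results.MP_081cfe_al.AIncrement

open Pool.Agent.H538Z

/-- For gap-free graphs the regularity grows by exactly two from the power `reg I - 1` on. -/
theorem result :
    ∀ (K : Type) [Field K] (n : ℕ) (G : SimpleGraph (Fin n)), (∃ a b, G.Adj a b) →
      GapFree G → ∀ q : ℕ, reg (edgeIdeal K G) - 1 ≤ q →
        reg (edgeIdeal K G ^ (q + 1)) = reg (edgeIdeal K G ^ q) + 2 := by
  intro K _ n G hG hg q hq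
  have := L2_lt (K := K) hG
  rw [reg_one hG] at hq
  rw [reg_pow hG (by omega), reg_pow hG (by omega), L2_gapFree hG hg]
  omega

end Pool.Agent.Results.MP_081cfe_al.AIncrement
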